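import Pool.Agent.TH198.AT.Stmts

/-!
# Derivative of the heat extension in time, and its continuity
-/

set_option autoImplicit false

open MeasureTheory ProbabilityTheory Set Filter Topology

namespace Pool.TH198.AT

theorem heat_abs_int : Integrable (fun y : ℝ => |y|) (gaussianReal 0 1) := by
  have h := (memLp_id_gaussianReal (μ := 0) (v := 1) 1).integrable (by simp)
  exact h.abs

theorem heat_lip {f f1 : ℝ → ℝ} {C : ℝ} (h : ∀ x, HasDerivAt f (f1 x) x) (hC : ∀ x, |f1 x| ≤ C) (x : ℝ) :
    |f x| ≤ |f 0| + C * |x| := by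
  have h1 := Convex.norm_image_sub_le_of_norm_hasDerivWithin_le (f := f) (f' := f1) (s := univ) (C := C)
    (x := 0) (y := x) (fun y _ => (h y).hasDerivWithinAt) (fun y _ => by
      rw [Real.norm_eq_abs]; exact hC y) convex_univ (mem_univ _) (mem_univ _)
  rw [Real.norm_eq_abs, Real.norm_eq_abs, sub_zero] at h1
  have h2 : |f x| ≤ |f 0| + |f x - f 0| := by
    have := abs_add_le (f 0) (f x - f 0)
    have e : f 0 + (f x - f 0) = f x := by ring
    rwa [e] at this
  linarith

theorem heat_int {f f1 : ℝ → ℝ} {C : ℝ} (h : ∀ x, HasDerivAt f (f1 x) x) (hC : ∀ x, |f1 x| ≤ C) (x s : ℝ) :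
    Integrable (fun y => f (x + s * y)) (gaussianReal 0 1) := by
  have hc : Continuous f := continuous_iff_continuousAt.2 fun x => (h x).continuousAt
  have hC0 : 0 ≤ C := (abs_nonneg _).trans (hC 0)
  refine Integrable.mono' (g := fun y => |f 0| + C * |x| + C * |s| * |y|) ?_ ?_ ?_
  · exact (integrable_const _).add (heat_abs_int.const_mul _)
  · exact (hc.comp (by fun_prop)).aestronglyMeasurable
  · refine Eventually.of_forall fun y => ?_
    rw [Real.norm_eq_abs]
    have h1 := heat_lip h hC (x + s * y)
    have h2 : |x + s * y| ≤ |x| + |s| * |y| := by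
      rw [← abs_mul]; exact abs_add_le _ _
    have h3 := mul_le_mul_of_nonneg_left h2 hC0
    nlinarith

theorem t_HEAT (hS : St_STEIN) : St_HEAT := by
  intro f f1 f2 ⟨h1, h2, h3, C, hC⟩
  have hC1 : ∀ x, |f1 x| ≤ C := fun x => (hC x).1
  have hC2 : ∀ x, |f2 x| ≤ C := fun x => (hC x).2
  have hC0 : 0 ≤ C := (abs_nonneg _).trans (hC1 0)
  have hc : Continuous f := continuous_iff_continuousAt.2 fun x => (h1 x).continuousAt
  have hc1 : Continuous f1 := continuous_iff_continuousAt.2 fun x => (h2 x).continuousAt
  constructor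
  · intro x v hv
    have hs : 0 < √v := Real.sqrt_pos.2 hv
    have hs2 : 0 < √(v / 2) := Real.sqrt_pos.2 (by positivity)
    have key := hasDerivAt_integral_of_dominated_loc_of_deriv_le (μ := gaussianReal 0 1)
      (F := fun w y => f (x + √w * y)) (F' := fun w y => f1 (x + √w * y) * (1 / (2 * √w) * y)) (x₀ := v)
      (s := Ioi (v / 2)) (bound := fun y => C * (1 / (2 * √(v / 2))) * |y|)
      (Ioi_mem_nhds (by linarith)) ?_ ?_ ?_ ?_ ?_ ?_
    · have e1 : E1 (fun y => f2 (x + √v * y)) / 2 =
          ∫ y, f1 (x + √v * y) * (1 / (2 * √v) * y) ∂(gaussianReal 0 1) := by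
        have st := hS (fun y => f1 (x + √v * y)) (fun y => √v * f2 (x + √v * y)) (C + √v * C) 0
          (fun y => by
            have a := (h2 (x + √v * y)).comp y ((((hasDerivAt_id y).const_mul (√v))).const_add x)
            have e : f2 (x + √v * y) * (√v * 1) = √v * f2 (x + √v * y) := by ring
            rw [← e]
            exact a)
          (by fun_prop)
          (fun y => by
            rw [zero_mul, Real.exp_zero, mul_one]
            have := hC1 (x + √v * y)
            have := mul_nonneg hs.le hC0
            linarith)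
          (fun y => by
            rw [zero_mul, Real.exp_zero, mul_one, abs_mul, abs_of_pos hs]
            have := mul_le_mul_of_nonneg_left (hC2 (x + √v * y)) hs.le
            linarith)
        unfold E1 at st ⊢
        have e2 : ∀ y, f1 (x + √v * y) * (1 / (2 * √v) * y) = (1 / (2 * √v)) * (y * f1 (x + √v * y)) := by
          intro y; ring
        simp only [e2]
        rw [integral_const_mul, st, integral_const_mul]
        field_simp
      rw [e1]
      exact key.2
    · exact Eventually.of_forall fun w => (hc.comp (by fun_prop)).aestronglyMeasurable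
    · exact heat_int h1 hC1 x (√v)
    · exact (Continuous.mul (hc1.comp (by fun_prop)) (by fun_prop)).aestronglyMeasurable
    · refine Eventually.of_forall fun y w hw => ?_
      rw [mem_Ioi] at hw
      have hw0 : 0 < w := by linarith
      have hle : √(v / 2) ≤ √w := Real.sqrt_le_sqrt hw.le
      have hws : 0 < √w := Real.sqrt_pos.2 hw0
      rw [Real.norm_eq_abs, abs_mul, abs_mul, abs_of_pos (by positivity : 0 < 1 / (2 * √w))]
      have a1 : 1 / (2 * √w) ≤ 1 / (2 * √(v / 2)) :=
        one_div_le_one_div_of_le (by positivity) (by linarith)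
      have a2 := mul_le_mul (hC1 (x + √w * y)) (mul_le_mul_of_nonneg_right a1 (abs_nonneg y))
        (by positivity) hC0
      calc _ ≤ _ := a2
        _ = _ := by ring
    · exact heat_abs_int.const_mul _
    · refine Eventually.of_forall fun y w hw => ?_
      rw [mem_Ioi] at hw
      have hw0 : 0 < w := by linarith
      have a0 : HasDerivAt (fun w : ℝ => √w) (1 / (2 * √w)) w := Real.hasDerivAt_sqrt hw0.ne'
      have a1 : HasDerivAt (fun w : ℝ => x + √w * y) (1 / (2 * √w) * y) w := (a0.mul_const y).const_add x
      exact (h1 (x + √w * y)).comp w a1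
  · rw [continuous_iff_continuousAt]
    intro p
    unfold E1
    refine continuousAt_of_dominated (bound := fun y => |f 0| + C * (|p.1| + 1) + C * (√p.2 + 1) * |y|)
      ?_ ?_ ?_ ?_
    · exact Eventually.of_forall fun q => (hc.comp (by fun_prop)).aestronglyMeasurable
    · have b1 : ∀ᶠ q : ℝ × ℝ in 𝓝 p, |q.1| < |p.1| + 1 :=
        (continuous_fst.abs.continuousAt (x := p)).eventually_lt continuousAt_const (by
          simp)
      have b2 : ∀ᶠ q : ℝ × ℝ in 𝓝 p, √q.2 < √p.2 + 1 :=
        ((Real.continuous_sqrt.comp continuous_snd).continuousAt (x := p)).eventually_lt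
          continuousAt_const (by simp)
      filter_upwards [b1, b2] with q hq1 hq2
      refine Eventually.of_forall fun y => ?_
      rw [Real.norm_eq_abs]
      have c1 := heat_lip h1 hC1 (q.1 + √q.2 * y)
      have c2 : |q.1 + √q.2 * y| ≤ |q.1| + √q.2 * |y| := by
        refine (abs_add_le _ _).trans ?_
        rw [abs_mul, abs_of_nonneg (Real.sqrt_nonneg _)]
      have c3 : |q.1| + √q.2 * |y| ≤ (|p.1| + 1) + (√p.2 + 1) * |y| :=
        add_le_add hq1.le (mul_le_mul_of_nonneg_right hq2.le (abs_nonneg y))
      have c4 := mul_le_mul_of_nonneg_left (c2.trans c3) hC0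
      nlinarith
    · exact (integrable_const _).add (heat_abs_int.const_mul _)
    · refine Eventually.of_forall fun y => ?_
      exact (hc.comp (by fun_prop)).continuousAt

end Pool.TH198.AT
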